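import Pool.Agent.H518R3.RD.Defs

set_option autoImplicit false

open Filter Topology

namespace Pool.Agent.H518R3.RD.T_CG

open Pool.Agent.H518R3.RD

theorem lim_of_dense {H : Type} [NormedAddCommGroup H] [InnerProductSpace ℂ H]
    (ξ : ℕ → H) (hξ : DenseRange ξ) (d : ℕ → (H →L[ℂ] H)) (x : H →L[ℂ] H) (n : ℕ)
    (hd : ∀ k, ‖d k‖ ≤ n) (hx : ‖x‖ ≤ n)
    (h : ∀ i, Tendsto (fun k => d k (ξ i)) atTop (𝓝 (x (ξ i)))) (η : H) :
    Tendsto (fun k => d k η) atTop (𝓝 (x η)) := by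
  rw [Metric.tendsto_atTop]
  intro ε hε
  have hn : (0 : ℝ) < 3 * ((n : ℝ) + 1) := by positivity
  obtain ⟨i, hi⟩ := hξ.exists_dist_lt η (div_pos hε hn)
  obtain ⟨N, hN⟩ := Metric.tendsto_atTop.mp (h i) (ε / 3) (by positivity)
  refine ⟨N, fun k hk => ?_⟩
  have h1 := hN k hk
  rw [dist_eq_norm] at h1 hi ⊢
  have h2 : d k η - x η = d k (η - ξ i) + (d k (ξ i) - x (ξ i)) - x (η - ξ i) := by
    rw [map_sub, map_sub]; abel
  have h3 : ‖d k (η - ξ i)‖ ≤ n * ‖η - ξ i‖ :=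
    ((d k).le_opNorm _).trans (mul_le_mul_of_nonneg_right (hd k) (norm_nonneg _))
  have h4 : ‖x (η - ξ i)‖ ≤ n * ‖η - ξ i‖ :=
    (x.le_opNorm _).trans (mul_le_mul_of_nonneg_right hx (norm_nonneg _))
  have h5 : (n : ℝ) * ‖η - ξ i‖ < ε / 3 := by
    have h6 : ‖η - ξ i‖ * (3 * ((n : ℝ) + 1)) < ε := (lt_div_iff₀ hn).mp hi
    have h7 := norm_nonneg (η - ξ i)
    nlinarith
  rw [h2]
  calc ‖d k (η - ξ i) + (d k (ξ i) - x (ξ i)) - x (η - ξ i)‖
      ≤ ‖d k (η - ξ i) + (d k (ξ i) - x (ξ i))‖ + ‖x (η - ξ i)‖ := norm_sub_le _ _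
    _ ≤ ‖d k (η - ξ i)‖ + ‖d k (ξ i) - x (ξ i)‖ + ‖x (η - ξ i)‖ := by
        gcongr
        exact norm_add_le _ _
    _ < ε := by linarith

/-- a countable subset whose image is dense in the image -/
theorem countable_sub {X Y : Type} [TopologicalSpace Y] [SecondCountableTopology Y]
    (Φ : X → Y) (S : Set X) : ∃ D : Set X, D ⊆ S ∧ D.Countable ∧ Φ '' S ⊆ closure (Φ '' D) := by
  obtain ⟨E, hE, hEd⟩ := TopologicalSpace.exists_countable_dense ↥(Φ '' S)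
  have hpre : ∀ e : ↥(Φ '' S), ∃ x ∈ S, Φ x = e.1 := fun e => e.2
  choose g hg1 hg2 using hpre
  refine ⟨g '' E, ?_, hE.image g, ?_⟩
  · rintro x ⟨e, _, rfl⟩
    exact hg1 e
  · intro y hy
    have h1 : (⟨y, hy⟩ : ↥(Φ '' S)) ∈ closure E := hEd _
    rw [closure_subtype] at h1
    refine closure_mono ?_ h1
    rintro z ⟨e, he, rfl⟩
    exact ⟨g e, ⟨e, he, rfl⟩, hg2 e⟩

theorem r_CG : R_CG := by
  intro H _ _ _ _ S hS
  set ξ : ℕ → H := TopologicalSpace.denseSeq H with hξ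
  have hdense : DenseRange ξ := TopologicalSpace.denseRange_denseSeq H
  set Φ : (H →L[ℂ] H) → (ℕ → H) := fun x i => x (ξ i) with hΦ
  haveI : SecondCountableTopology H := UniformSpace.secondCountable_of_separable H
  have h1 : ∀ n : ℕ, ∃ D : Set (H →L[ℂ] H), D ⊆ {x ∈ S | ‖x‖ ≤ n} ∧ D.Countable ∧
      Φ '' {x ∈ S | ‖x‖ ≤ n} ⊆ closure (Φ '' D) := fun n => countable_sub Φ _
  choose D hD1 hD2 hD3 using h1
  have hcount : (⋃ n, D n).Countable := Set.countable_iUnion hD2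
  have hne : (⋃ n, D n).Nonempty := by
    obtain ⟨x, hx⟩ := hS
    obtain ⟨n, hn⟩ := exists_nat_ge ‖x‖
    have h2 : Φ x ∈ closure (Φ '' D n) := hD3 n ⟨x, ⟨hx, hn⟩, rfl⟩
    obtain ⟨y, hy⟩ := closure_nonempty_iff.mp ⟨_, h2⟩
    obtain ⟨z, hz, _⟩ := hy
    exact ⟨z, Set.mem_iUnion.mpr ⟨n, hz⟩⟩
  obtain ⟨y, hy⟩ := hcount.exists_eq_range hne
  refine ⟨y, ?_, ?_⟩
  · intro k
    have : y k ∈ ⋃ n, D n := by rw [hy]; exact ⟨k, rfl⟩
    obtain ⟨n, hn⟩ := Set.mem_iUnion.mp this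
    exact (hD1 n hn).1
  · intro x hx
    unfold cc
    rw [Set.mem_centralizer_iff]
    intro s hs
    rw [← hy, Set.mem_centralizer_iff] at hs
    obtain ⟨n, hn⟩ := exists_nat_ge ‖x‖
    have h2 : Φ x ∈ closure (Φ '' D n) := hD3 n ⟨x, ⟨hx, hn⟩, rfl⟩
    obtain ⟨u, hu, hlim⟩ := mem_closure_iff_seq_limit.mp h2
    choose d hd hdu using hu
    have h3 : ∀ i, Tendsto (fun k => d k (ξ i)) atTop (𝓝 (x (ξ i))) := by
      intro i
      have h4 := (tendsto_pi_nhds.mp hlim) i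
      have h5 : (fun k => u k i) = fun k => d k (ξ i) := by
        funext k
        rw [← hdu k]
      rw [h5] at h4
      exact h4
    have h4 := lim_of_dense ξ hdense d x n (fun k => (hD1 n (hd k)).2) hn h3
    ext η
    rw [ContinuousLinearMap.mul_apply, ContinuousLinearMap.mul_apply]
    have h5 : Tendsto (fun k => s (d k η)) atTop (𝓝 (s (x η))) :=
      (s.continuous.tendsto _).comp (h4 η)
    have h6 : Tendsto (fun k => d k (s η)) atTop (𝓝 (x (s η))) := h4 (s η)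
    have h7 : (fun k => s (d k η)) = fun k => d k (s η) := by
      funext k
      have h8 := hs (d k) (Set.mem_iUnion.mpr ⟨n, hd k⟩)
      have h9 := congrArg (fun T : H →L[ℂ] H => T η) h8
      exact h9.symm
    rw [h7] at h5
    exact tendsto_nhds_unique h5 h6

end Pool.Agent.H518R3.RD.T_CG
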