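import Pool.Agent.H518R3.RD.Defs

set_option autoImplicit false

open Filter Topology

namespace Pool.Agent.H518R3.RD.T_SPB

open Pool.Agent.H518R3.RD H759R2.Kad

variable {H : Type} [NormedAddCommGroup H] [InnerProductSpace ℂ H] [CompleteSpace H]

/-- the operator norm inequality -/
theorem norm_key (e a x : H →L[ℂ] H) (he : star e = e) (ha : star a = a)
    (hlow : ∀ ξ : H, e ξ = ξ → 1 / 2 * ‖ξ‖ ≤ ‖a ξ‖) (hxe : x * e = x) :
    ‖x‖ ≤ 2 * ‖x * a‖ := by
  have h1 : ‖star x‖ ≤ 2 * ‖a * star x‖ := by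
    apply ContinuousLinearMap.opNorm_le_bound _ (by positivity)
    intro η
    have h2 : e (star x η) = star x η := by
      have h3 : star (x * e) = star x := by rw [hxe]
      rw [star_mul, he] at h3
      exact congrArg (fun T : H →L[ℂ] H => T η) h3
    have h4 := hlow _ h2
    have h5 : ‖(a * star x) η‖ ≤ ‖a * star x‖ * ‖η‖ := (a * star x).le_opNorm η
    have h6 : (a * star x) η = a (star x η) := rfl
    rw [h6] at h5
    linarith
  have h7 : ‖star (x * a)‖ = ‖x * a‖ := norm_star _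
  rw [star_mul, ha] at h7
  rw [norm_star, h7] at h1
  exact h1

section
variable {e a : ℕ → (H →L[ℂ] H)} {A : H →L[ℂ] H}

/-- one step of the induction -/
theorem step (hpr : ∀ i, IsPr (e i)) (hort : ∀ i j, i ≠ j → e i * e j = 0)
    (ha : ∀ i, star (a i) = a i ∧ e i * a i = a i ∧ ‖a i‖ ≤ 1)
    (hlow : ∀ i, ∀ ξ : H, e i ξ = ξ → 1 / 2 * ‖ξ‖ ≤ ‖a i ξ‖)
    (hA : HasSum (fun i => ((1 / 4 : ℂ) ^ i) • a i) A) (i : ℕ) (s : H →L[ℂ] H)
    (hs : s * A = A * s) (hind : ∀ j < i, s * a j = a j * s) :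
    (1 - e i) * s * e i = 0 := by
  have hae : ∀ j, a j * e j = a j := by
    intro j
    have h1 : star (e j * a j) = star (a j) := by rw [(ha j).2.1]
    rw [star_mul, (ha j).1, (hpr j).1] at h1
    exact h1
  have haeij : ∀ j k, j ≠ k → a j * e k = 0 := by
    intro j k hjk
    rw [← hae j, mul_assoc, hort j k hjk, mul_zero]
  have heaij : ∀ j k, j ≠ k → e k * a j = 0 := by
    intro j k hjk
    rw [← (ha j).2.1, ← mul_assoc, hort k j (Ne.symm hjk), zero_mul]
  have hAe : A * e i = ((1 / 4 : ℂ) ^ i) • a i := by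
    have h1 := hA.mul_right (e i)
    have h2 : HasSum (fun j => ((1 / 4 : ℂ) ^ j) • a j * e i) (((1 / 4 : ℂ) ^ i) • a i * e i) :=
      hasSum_single i (fun j hj => by
        rw [smul_mul_assoc, haeij j i hj, smul_zero])
    have h3 := h1.unique h2
    rw [h3, smul_mul_assoc, hae]
  have heA : e i * A = ((1 / 4 : ℂ) ^ i) • a i := by
    have h1 := hA.mul_left (e i)
    have h2 : HasSum (fun j => e i * (((1 / 4 : ℂ) ^ j) • a j)) (e i * (((1 / 4 : ℂ) ^ i) • a i)) :=
      hasSum_single i (fun j hj => by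
        rw [mul_smul_comm, heaij j i hj, smul_zero])
    have h3 := h1.unique h2
    rw [h3, mul_smul_comm, (ha i).2.1]
  -- the rest of the series
  set P : H →L[ℂ] H := ∑ j ∈ Finset.range i, ((1 / 4 : ℂ) ^ j) • a j with hP
  have hsP : s * P = P * s := by
    rw [hP, Finset.mul_sum, Finset.sum_mul]
    apply Finset.sum_congr rfl
    intro j hj
    rw [mul_smul_comm, smul_mul_assoc, hind j (Finset.mem_range.mp hj)]
  have hPe : P * e i = 0 := by
    rw [hP, Finset.sum_mul]
    apply Finset.sum_eq_zero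
    intro j hj
    rw [smul_mul_assoc, haeij j i (Finset.mem_range.mp hj).ne, smul_zero]
  have heP : e i * P = 0 := by
    rw [hP, Finset.mul_sum]
    apply Finset.sum_eq_zero
    intro j hj
    rw [mul_smul_comm, heaij j i (Finset.mem_range.mp hj).ne, smul_zero]
  set R : H →L[ℂ] H := A - P - ((1 / 4 : ℂ) ^ i) • a i with hR
  have hRn : ‖R‖ ≤ (1 / 4 : ℝ) ^ i / 3 := by
    have h1 := (hasSum_nat_add_iff' (i + 1)).mpr hA
    rw [Finset.sum_range_succ, ← hP, ← sub_sub, ← hR] at h1
    have h2 : HasSum (fun k : ℕ => (1 / 4 : ℝ) ^ (k + (i + 1))) ((1 / 4 : ℝ) ^ i / 3) := by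
      have h3 := (hasSum_geometric_of_lt_one (by norm_num : (0 : ℝ) ≤ 1 / 4)
        (by norm_num)).mul_right ((1 / 4 : ℝ) ^ (i + 1))
      have h4 : (1 - 1 / 4 : ℝ)⁻¹ * (1 / 4) ^ (i + 1) = (1 / 4) ^ i / 3 := by
        rw [pow_succ]; ring
      rw [h4] at h3
      refine h3.congr_fun ?_ |> fun h => h
      intro k
      rw [pow_add]
    refine h1.norm_le_of_bounded h2 ?_
    intro k
    rw [norm_smul, norm_pow]
    have h5 : ‖(1 / 4 : ℂ)‖ = 1 / 4 := by simp
    rw [h5]
    calc (1 / 4 : ℝ) ^ (k + (i + 1)) * ‖a (k + (i + 1))‖ ≤ (1 / 4 : ℝ) ^ (k + (i + 1)) * 1 :=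
          mul_le_mul_of_nonneg_left (ha _).2.2 (by positivity)
      _ = (1 / 4 : ℝ) ^ (k + (i + 1)) := mul_one _
  have hRe : R * e i = 0 := by
    rw [hR, sub_mul, sub_mul, hAe, hPe, smul_mul_assoc, hae, sub_zero, sub_self]
  set x : H →L[ℂ] H := (1 - e i) * s * e i with hx
  have hee : e i * e i = e i := (hpr i).2
  have hxe : x * e i = x := by
    rw [hx, mul_assoc, hee]
  have hex : e i * x = 0 := by
    rw [hx, ← mul_assoc, ← mul_assoc, mul_sub, mul_one, hee, sub_self, zero_mul, zero_mul]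
  -- main identity
  have hmain : ((1 / 4 : ℂ) ^ i) • (x * a i) = R * x := by
    have h1 : (1 - e i) * (s * A) * e i = (1 - e i) * (A * s) * e i := by rw [hs]
    have h2 : (1 - e i) * (s * A) * e i = ((1 / 4 : ℂ) ^ i) • (x * a i) := by
      rw [mul_assoc, mul_assoc, hAe, mul_smul_comm, mul_smul_comm, hx]
      congr 1
      rw [mul_assoc, mul_assoc, (ha i).2.1]
    have h3 : (1 - e i) * A = R + P := by
      rw [sub_mul, one_mul, heA, hR]; abel
    have h4 : (1 - e i) * (A * s) * e i = R * x + P * s * e i := by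
      have h5 : (1 - e i) * (A * s) * e i = ((1 - e i) * A) * s * e i := by
        simp only [mul_assoc]
      have h6 : R * s * e i = R * x := by
        have h8 : R * x = R * s * e i - R * e i * s * e i := by
          rw [hx]; noncomm_ring
        rw [h8, hRe, zero_mul, zero_mul, sub_zero]
      rw [h5, h3, add_mul, add_mul, h6]
    have h7 : P * s * e i = 0 := by
      rw [← hsP, mul_assoc, hPe, mul_zero]
    rw [← h2, h1, h4, h7, add_zero]
  have hn1 := norm_key (e i) (a i) x (hpr i).1 (ha i).1 (hlow i) hxe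
  have hn2 : (1 / 4 : ℝ) ^ i * ‖x * a i‖ ≤ (1 / 4 : ℝ) ^ i / 3 * ‖x‖ := by
    have h1 : ‖((1 / 4 : ℂ) ^ i) • (x * a i)‖ = ‖R * x‖ := by rw [hmain]
    rw [norm_smul, norm_pow] at h1
    have h5 : ‖(1 / 4 : ℂ)‖ = 1 / 4 := by simp
    rw [h5] at h1
    rw [h1]
    exact (norm_mul_le _ _).trans (mul_le_mul_of_nonneg_right hRn (norm_nonneg _))
  have hpos : (0 : ℝ) < (1 / 4) ^ i := by positivity
  have hn3 : ‖x * a i‖ ≤ ‖x‖ / 3 := by
    have h1 : (1 / 4 : ℝ) ^ i * ‖x * a i‖ ≤ (1 / 4 : ℝ) ^ i * (‖x‖ / 3) := by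
      calc _ ≤ (1 / 4 : ℝ) ^ i / 3 * ‖x‖ := hn2
        _ = (1 / 4 : ℝ) ^ i * (‖x‖ / 3) := by ring
    exact le_of_mul_le_mul_left h1 hpos
  have hn4 : ‖x‖ = 0 := by
    have := norm_nonneg x
    linarith
  exact norm_eq_zero.mp hn4

end

theorem r_SPB : R_SPB := by
  intro H _ _ _ e a A hpr hort ha hlow hA
  have hAs : star A = A := by
    have h1 := hA.star
    have h2 : (fun i => star (((1 / 4 : ℂ) ^ i) • a i)) = fun i => ((1 / 4 : ℂ) ^ i) • a i := by
      funext i
      rw [star_smul, (ha i).1]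
      congr 1
      simp
    rw [h2] at h1
    exact h1.unique hA
  have hae : ∀ j, a j * e j = a j := by
    intro j
    have h1 : star (e j * a j) = star (a j) := by rw [(ha j).2.1]
    rw [star_mul, (ha j).1, (hpr j).1] at h1
    exact h1
  have hAe : ∀ i, A * e i = ((1 / 4 : ℂ) ^ i) • a i := by
    intro i
    have h1 := hA.mul_right (e i)
    have h2 : HasSum (fun j => ((1 / 4 : ℂ) ^ j) • a j * e i) (((1 / 4 : ℂ) ^ i) • a i * e i) :=
      hasSum_single i (fun j hj => by
        have : a j * e i = 0 := by rw [← hae j, mul_assoc, hort j i hj, mul_zero]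
        rw [smul_mul_assoc, this, smul_zero])
    have h3 := h1.unique h2
    rw [h3, smul_mul_assoc, hae]
  have key : ∀ i : ℕ, ∀ s : H →L[ℂ] H, s * A = A * s → s * e i = e i * s ∧ s * a i = a i * s := by
    intro i
    induction i using Nat.strong_induction_on with
    | _ i ih =>
      intro s hs
      have hs' : star s * A = A * star s := by
        have h1 := congrArg star hs
        rw [star_mul, star_mul, hAs] at h1
        exact h1.symm
      have h1 := step hpr hort ha hlow hA i s hs (fun j hj => (ih j hj s hs).2)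
      have h2 := step hpr hort ha hlow hA i (star s) hs' (fun j hj => (ih j hj (star s) hs').2)
      rw [sub_mul, one_mul, sub_mul, sub_eq_zero] at h1 h2
      have h3 : e i * s = e i * s * e i := by
        have h4 := congrArg star h2
        rw [star_mul, star_mul, star_mul, star_star, (hpr i).1, ← mul_assoc] at h4
        exact h4
      have h5 : s * e i = e i * s := by rw [h1, ← h3]
      refine ⟨h5, ?_⟩
      have h6 : s * (A * e i) = (A * e i) * s := by
        rw [← mul_assoc, hs, mul_assoc, h5, ← mul_assoc]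
      rw [hAe, mul_smul_comm, smul_mul_assoc] at h6
      have hne : ((1 / 4 : ℂ) ^ i) ≠ 0 := pow_ne_zero _ (by norm_num)
      exact smul_right_injective _ hne h6
  intro s hs i
  exact key i s hs

end Pool.Agent.H518R3.RD.T_SPB
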